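import Pool.Agent.H63.WT.TB

/-!
# The fourth point (FPT)
-/

set_option autoImplicit false

open Polynomial Matrix Pool.Agent.H63.WT

namespace Pool.Agent.H13.WIT

/-- the interpolation polynomial -/
noncomputable def ip {F : Type} [Field F] (t0 t1 t2 a0 a1 a2 : F) : F[X] :=
  C a0 * ((X - C t1) * (X - C t2)) + C a1 * ((X - C t0) * (X - C t2)) +
    C a2 * ((X - C t0) * (X - C t1))

theorem ip_eq {F : Type} [Field F] (t0 t1 t2 a0 a1 a2 : F) :
    ip t0 t1 t2 a0 a1 a2 = C (a0 + a1 + a2) * X ^ 2 +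
      C (-(a0 * (t1 + t2) + a1 * (t0 + t2) + a2 * (t0 + t1))) * X +
      C (a0 * (t1 * t2) + a1 * (t0 * t2) + a2 * (t0 * t1)) := by
  unfold ip
  simp only [map_add, map_neg, map_mul]
  ring

theorem core {F : Type} [Field F] (m : F) (M0 : F[X]) (t0 t1 t2 a0 a1 a2 : F)
    (hM : M0.Monic) (hd : M0.natDegree = 4) (h01 : t0 ≠ t1) (h02 : t0 ≠ t2) (h12 : t1 ≠ t2)
    (hl : (a0 + a1 + a2) ^ 2 ≠ m)
    (e0 : m * eval t0 M0 = (a0 * ((t0 - t1) * (t0 - t2))) ^ 2)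
    (e1 : m * eval t1 M0 = (a1 * ((t1 - t0) * (t1 - t2))) ^ 2)
    (e2 : m * eval t2 M0 = (a2 * ((t2 - t0) * (t2 - t1))) ^ 2) :
    ∃ (Y : F[X]) (l s : F), l ≠ 0 ∧
      Y ^ 2 - C m * M0 = C l * ((X - C t0) * (X - C t1) * (X - C t2) * (X - C s)) := by
  set Y := ip t0 t1 t2 a0 a1 a2 with hY
  set R := Y ^ 2 - C m * M0 with hR
  have hYd : Y.natDegree ≤ 2 := by
    rw [hY, ip_eq]
    compute_degree
  have hYc : Y.coeff 2 = a0 + a1 + a2 := by
    rw [hY, ip_eq, coeff_add, coeff_add, coeff_C_mul, coeff_C_mul, coeff_X_pow, coeff_X,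
      coeff_C]
    norm_num
  have hRd : R.natDegree ≤ 4 := by
    rw [hR]
    refine (natDegree_sub_le _ _).trans (max_le ?_ ?_)
    · refine natDegree_pow_le.trans ?_
      omega
    · refine (natDegree_C_mul_le _ _).trans ?_
      omega
  have hRc : R.coeff 4 = (a0 + a1 + a2) ^ 2 - m := by
    rw [hR, coeff_sub, coeff_C_mul]
    have g1 : (Y ^ 2).coeff 4 = (a0 + a1 + a2) ^ 2 := by
      rw [pow_two, show (4 : ℕ) = 2 + 2 from rfl, coeff_mul_add_eq_of_natDegree_le hYd hYd, hYc]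
      ring
    have g2 : M0.coeff 4 = 1 := by
      rw [← hd]
      exact hM
    rw [g1, g2, mul_one]
  have hl' : R.coeff 4 ≠ 0 := by
    rw [hRc]
    exact sub_ne_zero.2 hl
  have hR4 : R.natDegree = 4 := le_antisymm hRd (le_natDegree_of_ne_zero hl')
  have hR0 : eval t0 R = 0 := by
    rw [hR, hY]
    unfold ip
    simp only [eval_sub, eval_pow, eval_add, eval_mul, eval_C, eval_X]
    rw [e0]
    ring
  have hR1 : eval t1 R = 0 := by
    rw [hR, hY]
    unfold ip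
    simp only [eval_sub, eval_pow, eval_add, eval_mul, eval_C, eval_X]
    rw [e1]
    ring
  have hR2 : eval t2 R = 0 := by
    rw [hR, hY]
    unfold ip
    simp only [eval_sub, eval_pow, eval_add, eval_mul, eval_C, eval_X]
    rw [e2]
    ring
  obtain ⟨R1, k1⟩ := dvd_iff_isRoot.2 hR0
  have hR1' : eval t1 R1 = 0 := by
    rw [k1, eval_mul, eval_sub, eval_X, eval_C] at hR1
    exact (mul_eq_zero.1 hR1).resolve_left (sub_ne_zero.2 (Ne.symm h01))
  obtain ⟨R2, k2⟩ := dvd_iff_isRoot.2 hR1'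
  have hR2' : eval t2 R2 = 0 := by
    rw [k1, k2, eval_mul, eval_mul, eval_sub, eval_sub, eval_X, eval_C, eval_C] at hR2
    have g := (mul_eq_zero.1 hR2).resolve_left (sub_ne_zero.2 (Ne.symm h02))
    exact (mul_eq_zero.1 g).resolve_left (sub_ne_zero.2 (Ne.symm h12))
  obtain ⟨R3, k3⟩ := dvd_iff_isRoot.2 hR2'
  have hRne : R ≠ 0 := fun h => hl' (by rw [h, coeff_zero])
  have hRe : R = ((X - C t0) * (X - C t1) * (X - C t2)) * R3 := by
    rw [k1, k2, k3]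
    ring
  have hR3ne : R3 ≠ 0 := fun h => hRne (by rw [hRe, h, mul_zero])
  have hmon : ((X - C t0) * (X - C t1) * (X - C t2)).Monic :=
    ((monic_X_sub_C t0).mul (monic_X_sub_C t1)).mul (monic_X_sub_C t2)
  have hmd : ((X - C t0) * (X - C t1) * (X - C t2)).natDegree = 3 := by
    rw [((monic_X_sub_C t0).mul (monic_X_sub_C t1)).natDegree_mul (monic_X_sub_C t2),
      (monic_X_sub_C t0).natDegree_mul (monic_X_sub_C t1), natDegree_X_sub_C,
      natDegree_X_sub_C, natDegree_X_sub_C]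
  have hd3 : R3.natDegree = 1 := by
    have g := hmon.natDegree_mul' hR3ne
    rw [← hRe, hR4, hmd] at g
    omega
  have h3 := eq_X_add_C_of_natDegree_le_one hd3.le
  have hlc : R3.coeff 1 ≠ 0 := by
    have g := leadingCoeff_ne_zero.2 hR3ne
    rw [leadingCoeff, hd3] at g
    exact g
  refine ⟨Y, R3.coeff 1, -(R3.coeff 0 / R3.coeff 1), hlc, ?_⟩
  have h4 : R3 = C (R3.coeff 1) * (X - C (-(R3.coeff 0 / R3.coeff 1))) := by
    have g : C (R3.coeff 1) * (X - C (-(R3.coeff 0 / R3.coeff 1))) =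
        C (R3.coeff 1) * X + C (R3.coeff 0) := by
      rw [map_neg, sub_neg_eq_add, mul_add, ← C_mul, mul_div_cancel₀ _ hlc]
    rw [g]
    exact h3
  calc Y ^ 2 - C m * M0 = R := rfl
    _ = ((X - C t0) * (X - C t1) * (X - C t2)) * R3 := hRe
    _ = ((X - C t0) * (X - C t1) * (X - C t2)) *
        (C (R3.coeff 1) * (X - C (-(R3.coeff 0 / R3.coeff 1)))) := by rw [← h4]
    _ = _ := by ring

theorem pf_FPT : T_FPT := by
  intro F _ h2 m M0 t y hm hM hd ht hy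
  have h01 : t 0 ≠ t 1 := fun h => absurd (ht h) (by decide)
  have h02 : t 0 ≠ t 2 := fun h => absurd (ht h) (by decide)
  have h12 : t 1 ≠ t 2 := fun h => absurd (ht h) (by decide)
  have s01 := sub_ne_zero.2 h01
  have s02 := sub_ne_zero.2 h02
  have s12 := sub_ne_zero.2 h12
  have s10 := sub_ne_zero.2 (Ne.symm h01)
  have s20 := sub_ne_zero.2 (Ne.symm h02)
  have s21 := sub_ne_zero.2 (Ne.symm h12)
  obtain ⟨a0, ha0⟩ : ∃ a0, y 0 = a0 * ((t 0 - t 1) * (t 0 - t 2)) :=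
    ⟨y 0 / ((t 0 - t 1) * (t 0 - t 2)), (div_mul_cancel₀ _ (mul_ne_zero s01 s02)).symm⟩
  obtain ⟨a1, ha1⟩ : ∃ a1, y 1 = a1 * ((t 1 - t 0) * (t 1 - t 2)) :=
    ⟨y 1 / ((t 1 - t 0) * (t 1 - t 2)), (div_mul_cancel₀ _ (mul_ne_zero s10 s12)).symm⟩
  obtain ⟨a2, ha2⟩ : ∃ a2, y 2 = a2 * ((t 2 - t 0) * (t 2 - t 1)) :=
    ⟨y 2 / ((t 2 - t 0) * (t 2 - t 1)), (div_mul_cancel₀ _ (mul_ne_zero s20 s21)).symm⟩
  have n0 : a0 ≠ 0 := fun h => (hy 0).1 (by rw [ha0, h, zero_mul])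
  have n1 : a1 ≠ 0 := fun h => (hy 1).1 (by rw [ha1, h, zero_mul])
  have n2 : a2 ≠ 0 := fun h => (hy 2).1 (by rw [ha2, h, zero_mul])
  have e0 := (hy 0).2
  have e1 := (hy 1).2
  have e2 := (hy 2).2
  rw [ha0] at e0
  rw [ha1] at e1
  rw [ha2] at e2
  have e0' : m * eval (t 0) M0 = (-a0 * ((t 0 - t 1) * (t 0 - t 2))) ^ 2 := by
    rw [e0]
    ring
  have e1' : m * eval (t 1) M0 = (-a1 * ((t 1 - t 0) * (t 1 - t 2))) ^ 2 := by
    rw [e1]
    ring
  have e2' : m * eval (t 2) M0 = (-a2 * ((t 2 - t 0) * (t 2 - t 1))) ^ 2 := by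
    rw [e2]
    ring
  by_cases c1 : (a0 + a1 + a2) ^ 2 = m
  · by_cases c2 : (a0 + a1 + -a2) ^ 2 = m
    · by_cases c3 : (a0 + -a1 + a2) ^ 2 = m
      · by_cases c4 : (-a0 + a1 + a2) ^ 2 = m
        · exfalso
          have h4 : (2 : F) * 2 ≠ 0 := mul_ne_zero h2 h2
          have g1 : (2 : F) * 2 * a2 * (a0 + a1) = 0 := by linear_combination c1 - c2
          have g2 : (2 : F) * 2 * a1 * (a0 + a2) = 0 := by linear_combination c1 - c3
          have g3 : (2 : F) * 2 * a0 * (a1 + a2) = 0 := by linear_combination c1 - c4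
          have k1 := (mul_eq_zero.1 g1).resolve_left (mul_ne_zero h4 n2)
          have k2 := (mul_eq_zero.1 g2).resolve_left (mul_ne_zero h4 n1)
          have k3 := (mul_eq_zero.1 g3).resolve_left (mul_ne_zero h4 n0)
          have k4 : (2 : F) * a0 = 0 := by linear_combination k1 + k2 - k3
          exact n0 ((mul_eq_zero.1 k4).resolve_left h2)
        · exact core m M0 _ _ _ (-a0) a1 a2 hM hd h01 h02 h12 c4 e0' e1 e2
      · exact core m M0 _ _ _ a0 (-a1) a2 hM hd h01 h02 h12 c3 e0 e1' e2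
    · exact core m M0 _ _ _ a0 a1 (-a2) hM hd h01 h02 h12 c2 e0 e1 e2'
  · exact core m M0 _ _ _ a0 a1 a2 hM hd h01 h02 h12 c1 e0 e1 e2

end Pool.Agent.H13.WIT
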